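import Mathlib

/-!
A compact subset `K` of the space `SC_p(ω^ω)` of scatteredly continuous functions on the Baire
space which is homeomorphic to a compact convex subset of `ℝ^𝔠` but is not metrizable.

The compact convex set is `C = {f ∈ ℝ^ℝ : f ≥ 0, ∑ f ≤ 1}` (all finite partial sums at most `1`).
It is embedded by `f ↦ (z ↦ max 0 (f (ψ (tail z)) - 1 / (z 0 + 1)))` where
`ψ : ω^ω ≃ ℝ` is a bijection: on each of the clopen sets `{z | z 0 = n}` the
image function has finite support.
-/

namespace Pool.Agent.Results.MP_69956f_gt.NonmetrizableConvex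

open Set Topology TopologicalSpace

/-- A function `f : X → ℝ` is *scatteredly continuous* if for every nonempty subset `A` of `X` the
restriction `f|A` has at least one point of continuity (subspace topology on `A`). -/
def ScatteredlyContinuous {X : Type*} [TopologicalSpace X] (f : X → ℝ) : Prop :=
  ∀ A : Set X, A.Nonempty → ∃ a : A, ContinuousAt (fun x : A => f x) a

/-- The set `SC_p(X)` of scatteredly continuous real-valued functions, inside `ℝ^X` with the
topology of pointwise convergence (the product topology on `X → ℝ`). -/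
def SCp (X : Type*) [TopologicalSpace X] : Set (X → ℝ) :=
  {f | ScatteredlyContinuous f}

/-- The compact convex set `C` of all nonnegative functions on `ℝ` with total sum at most `1`. -/
def C : Set (ℝ → ℝ) :=
  {f | (∀ x, 0 ≤ f x) ∧ ∀ s : Finset ℝ, ∑ x ∈ s, f x ≤ 1}

lemma C_convex : Convex ℝ C := by
  intro f hf g hg a b ha hb hab
  refine ⟨fun x => ?_, fun s => ?_⟩
  · have h1 := hf.1 x
    have h2 := hg.1 x
    simp only [Pi.add_apply, Pi.smul_apply, smul_eq_mul]
    positivity
  · have h1 := hf.2 s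
    have h2 := hg.2 s
    simp only [Pi.add_apply, Pi.smul_apply, smul_eq_mul, Finset.sum_add_distrib,
      ← Finset.mul_sum]
    calc a * ∑ x ∈ s, f x + b * ∑ x ∈ s, g x ≤ a * 1 + b * 1 := by gcongr
      _ = 1 := by linarith

lemma C_closed : IsClosed C := by
  have h : C = (⋂ x, {f : ℝ → ℝ | 0 ≤ f x}) ∩ ⋂ s : Finset ℝ, {f : ℝ → ℝ | ∑ x ∈ s, f x ≤ 1} := by
    ext f
    simp [C]
  rw [h]
  refine IsClosed.inter (isClosed_iInter fun x => ?_) (isClosed_iInter fun s => ?_)
  · exact isClosed_le continuous_const (continuous_apply x)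
  · exact isClosed_le (continuous_finsetSum _ fun x _ => continuous_apply x) continuous_const

lemma C_le_one {f : ℝ → ℝ} (hf : f ∈ C) (x : ℝ) : f x ≤ 1 := by
  simpa using hf.2 {x}

lemma C_compact : IsCompact C := by
  have h : IsCompact (Set.pi univ fun _ : ℝ => Icc (0 : ℝ) 1) :=
    isCompact_univ_pi fun _ => isCompact_Icc
  exact h.of_isClosed_subset C_closed fun f hf x _ => ⟨hf.1 x, C_le_one hf x⟩

/-- only finitely many coordinates of a point of `C` exceed a positive threshold -/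
lemma C_finite {f : ℝ → ℝ} (hf : f ∈ C) {ε : ℝ} (hε : 0 < ε) : {x | ε < f x}.Finite := by
  by_contra hinf
  obtain ⟨n, hn⟩ := exists_nat_gt (1 / ε)
  obtain ⟨s, hs, hcard⟩ := (show Set.Infinite {x | ε < f x} from hinf).exists_subset_card_eq n
  have h1 : (n : ℝ) * ε ≤ ∑ x ∈ s, f x := by
    have : s.card • ε ≤ ∑ x ∈ s, f x := by
      refine Finset.card_nsmul_le_sum s f ε fun x hx => ?_
      exact le_of_lt (hs hx)
    rwa [hcard, nsmul_eq_mul] at this
  have h2 := hf.2 s
  have h3 : 1 < (n : ℝ) * ε := by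
    rwa [div_lt_iff₀ hε] at hn
  linarith

/-- the tail of a sequence -/
def tail (z : ℕ → ℕ) : ℕ → ℕ := fun k => z (k + 1)

lemma tail_injOn (n : ℕ) : InjOn tail {z : ℕ → ℕ | z 0 = n} := by
  intro z hz w hw h
  funext k
  cases k with
  | zero => exact (hz : z 0 = n).trans (hw : w 0 = n).symm
  | succ k => exact congrFun h k

lemma exists_equiv : Nonempty ((ℕ → ℕ) ≃ ℝ) := by
  rw [← Cardinal.eq]
  simp [Cardinal.mk_real]

/-- a bijection between the Baire space and the index set `ℝ` -/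
noncomputable def ψ : (ℕ → ℕ) ≃ ℝ := Classical.choice exists_equiv

/-- the embedding -/
noncomputable def e (f : ℝ → ℝ) : (ℕ → ℕ) → ℝ :=
  fun z => max 0 (f (ψ (tail z)) - 1 / ((z 0 : ℝ) + 1))

lemma e_continuous : Continuous e := by
  refine continuous_pi fun z => ?_
  exact continuous_const.max ((continuous_apply _).sub continuous_const)

/-- prepend -/
def cons (n : ℕ) (y : ℕ → ℕ) : ℕ → ℕ := fun k => Nat.casesOn k n y

lemma tail_cons (n : ℕ) (y : ℕ → ℕ) : tail (cons n y) = y := rfl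

lemma e_injOn : InjOn e C := by
  have key : ∀ f ∈ C, ∀ g ∈ C, e f = e g → ∀ x, f x ≤ g x := by
    intro f hf g hg h x
    by_contra hlt
    push Not at hlt
    obtain ⟨n, hn⟩ := exists_nat_one_div_lt (sub_pos.2 hlt)
    have h1 := congrFun h (cons n (ψ.symm x))
    simp only [e, tail_cons, Equiv.apply_symm_apply] at h1
    have h2 : (cons n (ψ.symm x)) 0 = n := rfl
    rw [h2] at h1
    have hg0 := hg.1 x
    have h3 : 0 < f x - 1 / ((n : ℝ) + 1) := by linarith
    rw [max_eq_right h3.le] at h1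
    have h4 : 0 < max 0 (g x - 1 / ((n : ℝ) + 1)) := h1 ▸ h3
    have h5 : max 0 (g x - 1 / ((n : ℝ) + 1)) = g x - 1 / ((n : ℝ) + 1) := by
      rcases max_choice 0 (g x - 1 / ((n : ℝ) + 1)) with h | h
      · rw [h] at h4
        exact absurd h4 (lt_irrefl _)
      · exact h
    rw [h5] at h1
    linarith
  intro f hf g hg h
  funext x
  exact le_antisymm (key f hf g hg h x) (key g hg f hf h.symm x)

lemma e_support {f : ℝ → ℝ} (hf : f ∈ C) (n : ℕ) :
    {z : ℕ → ℕ | z 0 = n ∧ e f z ≠ 0}.Finite := by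
  have h1 : {x | 1 / ((n : ℝ) + 1) < f x}.Finite := C_finite hf (by positivity)
  have h2 : (ψ ⁻¹' {x | 1 / ((n : ℝ) + 1) < f x}).Finite :=
    h1.preimage ψ.injective.injOn
  have h3 : ({z : ℕ → ℕ | z 0 = n} ∩ tail ⁻¹' (ψ ⁻¹' {x | 1 / ((n : ℝ) + 1) < f x})).Finite := by
    refine Set.Finite.of_finite_image (f := tail) (h2.subset ?_) ?_
    · rintro _ ⟨z, hz, rfl⟩
      exact hz.2
    · exact (tail_injOn n).mono inter_subset_left
  refine h3.subset ?_
  rintro z ⟨hz, hne⟩
  refine ⟨hz, ?_⟩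
  simp only [mem_preimage, mem_ofPred_eq]
  by_contra hle
  push Not at hle
  apply hne
  simp only [e]
  rw [hz]
  exact max_eq_left (by linarith)

lemma e_scattered {f : ℝ → ℝ} (hf : f ∈ C) : ScatteredlyContinuous (e f) := by
  intro A hA
  obtain ⟨a, ha⟩ := hA
  set n := a 0 with hn
  set S : Set (ℕ → ℕ) := {z : ℕ → ℕ | z 0 = n ∧ e f z ≠ 0} with hS
  have hSfin : S.Finite := e_support hf n
  have hopen : IsOpen {z : ℕ → ℕ | z 0 = n} := by
    have hc : Continuous fun z : ℕ → ℕ => z 0 := continuous_apply 0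
    exact (isOpen_discrete ({n} : Set ℕ)).preimage hc
  by_cases hcase : ∃ b ∈ A, b 0 = n ∧ e f b = 0
  · obtain ⟨b, hbA, hb0, hbe⟩ := hcase
    refine ⟨⟨b, hbA⟩, ?_⟩
    have hU : IsOpen ({z : ℕ → ℕ | z 0 = n} \ S) := hopen.sdiff hSfin.isClosed
    have hbU : b ∈ {z : ℕ → ℕ | z 0 = n} \ S := ⟨hb0, fun h => h.2 hbe⟩
    have hev : (fun z : A => e f z) =ᶠ[𝓝 (⟨b, hbA⟩ : A)] fun _ => 0 := by
      have : ((↑) : A → (ℕ → ℕ)) ⁻¹' ({z : ℕ → ℕ | z 0 = n} \ S) ∈ 𝓝 (⟨b, hbA⟩ : A) :=
        (hU.preimage continuous_subtype_val).mem_nhds hbU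
      filter_upwards [this] with z hz
      by_contra hne
      exact hz.2 ⟨hz.1, hne⟩
    exact (continuousAt_const.congr hev.symm)
  · push Not at hcase
    refine ⟨⟨a, ha⟩, ?_⟩
    -- `A ∩ {z 0 = n}` is finite and hence discrete
    have hsub : A ∩ {z : ℕ → ℕ | z 0 = n} ⊆ S := fun z hz => ⟨hz.2, hcase z hz.1 hz.2⟩
    have hfin : (A ∩ {z : ℕ → ℕ | z 0 = n}).Finite := hSfin.subset hsub
    have hU : IsOpen ({z : ℕ → ℕ | z 0 = n} \ ((A ∩ {z : ℕ → ℕ | z 0 = n}) \ {a})) :=
      hopen.sdiff (hfin.subset sdiff_subset).isClosed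
    have haU : a ∈ {z : ℕ → ℕ | z 0 = n} \ ((A ∩ {z : ℕ → ℕ | z 0 = n}) \ {a}) :=
      ⟨hn.symm, fun h => h.2 rfl⟩
    have hev : (fun z : A => e f z) =ᶠ[𝓝 (⟨a, ha⟩ : A)] fun _ => e f a := by
      have : ((↑) : A → (ℕ → ℕ)) ⁻¹'
          ({z : ℕ → ℕ | z 0 = n} \ ((A ∩ {z : ℕ → ℕ | z 0 = n}) \ {a})) ∈ 𝓝 (⟨a, ha⟩ : A) :=
        (hU.preimage continuous_subtype_val).mem_nhds haU
      filter_upwards [this] with z hz
      have hza : (z : ℕ → ℕ) = a := by
        by_contra hne
        exact hz.2 ⟨⟨z.2, hz.1⟩, hne⟩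
      simp [hza]
    exact (continuousAt_const.congr hev.symm)

/-- unit vectors lie in `C` -/
lemma single_mem (x : ℝ) : (Pi.single x 1 : ℝ → ℝ) ∈ C := by
  refine ⟨fun y => ?_, fun s => ?_⟩
  · by_cases h : y = x
    · subst h; simp
    · simp [Pi.single_eq_of_ne h]
  · have h : ∀ y ∈ s, (Pi.single x 1 : ℝ → ℝ) y = if y = x then 1 else 0 := fun y _ => by
      simp [Pi.single_apply]
    rw [Finset.sum_congr rfl h, Finset.sum_ite_eq' s x (fun _ => (1 : ℝ))]
    split_ifs <;> norm_num

lemma C_not_metrizable : ¬ MetrizableSpace C := by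
  intro hm
  have : CompactSpace C := isCompact_iff_compactSpace.1 C_compact
  let _ := metrizableSpaceMetric C
  have : SecondCountableTopology C := inferInstance
  have hcount : (univ : Set ℝ).Countable := by
    refine Set.PairwiseDisjoint.countable_of_isOpen
      (s := fun x : ℝ => {f : C | (1 / 2 : ℝ) < (f : ℝ → ℝ) x}) ?_ ?_ ?_
    · intro x _ y _ hxy
      rw [Function.onFun, Set.disjoint_left]
      intro f hfx hfy
      have h1 := f.2.2 {x, y}
      rw [Finset.sum_pair hxy] at h1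
      simp only [mem_ofPred_eq] at hfx hfy
      linarith
    · intro x _
      exact isOpen_lt continuous_const ((continuous_apply x).comp continuous_subtype_val)
    · intro x _
      exact ⟨⟨Pi.single x 1, single_mem x⟩, by simp; norm_num⟩
  exact Cardinal.not_countable_real hcount

/-- **Negative answer to Q1.** There is a compact set `K` of scatteredly continuous functions on
the Baire space `ω^ω = (ℕ → ℕ)` (pointwise topology) which is homeomorphic to a compact convex
subset of `ℝ^𝔠 = (ℝ → ℝ)` (product topology) but is not metrizable. -/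
theorem result :
    ∃ K : Set ((ℕ → ℕ) → ℝ), K ⊆ SCp (ℕ → ℕ) ∧ IsCompact K ∧
      (∃ L : Set (ℝ → ℝ), IsCompact L ∧ Convex ℝ L ∧ Nonempty (K ≃ₜ L)) ∧
      ¬ MetrizableSpace K := by
  have : CompactSpace C := isCompact_iff_compactSpace.1 C_compact
  have hcont : Continuous ((fun f : C => e f)) := e_continuous.comp continuous_subtype_val
  have hinj : Function.Injective ((fun f : C => e f)) := injOn_iff_injective.1 e_injOn
  have hemb : IsClosedEmbedding ((fun f : C => e f)) := hcont.isClosedEmbedding hinj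
  have hhomeo : C ≃ₜ Set.range ((fun f : C => e f)) := hemb.isEmbedding.toHomeomorph
  refine ⟨Set.range ((fun f : C => e f)), ?_, isCompact_range hcont,
    ⟨C, C_compact, C_convex, ⟨hhomeo.symm⟩⟩, ?_⟩
  · rintro _ ⟨f, rfl⟩
    exact e_scattered f.2
  · intro hm
    apply C_not_metrizable
    exact hhomeo.isEmbedding.metrizableSpace

end Pool.Agent.Results.MP_69956f_gt.NonmetrizableConvex
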